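import Pool.Agent.N483.KM.StmS
import Pool.Agent.R751.MB.Lin

/-!
# Project KM, part PSDG: the cones of positive semidefinite matrices
-/

set_option autoImplicit false

namespace Pool.Agent.N31.KM

open MeasureTheory Set Filter Topology
open scoped ENNReal InnerProductSpace ComplexOrder Matrix
open Pool.Agent.R751.MB (Eu EW VW Adm LCn AP Frame lin)
open Pool.Agent.N483.KM (wc PC Pf GC S_PSDB S_PSDG)

variable {𝕜 : Type} [RCLike 𝕜] {D : ℕ} {ι : Type} [Fintype ι]
  {Φ : Eu ι →ₗ[ℝ] Matrix (Fin D) (Fin D) 𝕜}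

/-- the trace form -/
lemma tr_self {X : Matrix (Fin D) (Fin D) 𝕜} (hX : X.conjTranspose = X) :
    RCLike.re (X * X).trace = ∑ i, ∑ j, ‖X i j‖ ^ 2 := by
  rw [Matrix.trace, map_sum]
  refine Finset.sum_congr rfl fun i _ => ?_
  rw [Matrix.diag_apply, Matrix.mul_apply, map_sum]
  refine Finset.sum_congr rfl fun j _ => ?_
  have h1 : X j i = (starRingEnd 𝕜) (X i j) := by
    conv_lhs => rw [← hX]
    rfl
  rw [h1, RCLike.mul_conj]
  norm_cast

lemma inner_eq (hΦ : Frame Φ) (x y : Eu ι) : ⟪x, y⟫_ℝ = RCLike.re (Φ x * Φ y).trace := by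
  have h : ∀ z, ‖z‖ ^ 2 = RCLike.re (Φ z * Φ z).trace := fun z => by
    rw [tr_self (hΦ.herm z), hΦ.iso]
  have h1 := h (x + y)
  have h2 := @norm_add_sq_real _ _ _ x y
  rw [h2, h x, h y, map_add, add_mul, mul_add, mul_add, Matrix.trace_add, Matrix.trace_add,
    Matrix.trace_add, map_add, map_add, map_add, Matrix.trace_mul_comm (Φ y) (Φ x)] at h1
  linarith

lemma inj (hΦ : Frame Φ) : Function.Injective Φ := by
  rw [injective_iff_map_eq_zero]
  intro x hx
  have h := hΦ.iso x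
  rw [hx] at h
  simp only [Matrix.zero_apply, norm_zero, ne_eq, OfNat.ofNat_ne_zero, not_false_eq_true, zero_pow,
    Finset.sum_const_zero] at h
  exact norm_eq_zero.1 (pow_eq_zero_iff two_ne_zero |>.1 h.symm)

/-- the quadratic form of a matrix as a functional -/
noncomputable def qf (Φ : Eu ι →ₗ[ℝ] Matrix (Fin D) (Fin D) 𝕜) (v : Fin D → 𝕜) : Eu ι →ₗ[ℝ] ℝ where
  toFun x := RCLike.re (star v ⬝ᵥ ((Φ x) *ᵥ v))
  map_add' x y := by rw [map_add, Matrix.add_mulVec, dotProduct_add, map_add]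
  map_smul' r x := by
    rw [map_smul, Matrix.smul_mulVec, dotProduct_smul, RingHom.id_apply, RCLike.smul_re, smul_eq_mul]

lemma mem_iff (hΦ : Frame Φ) (x : Eu ι) : (Φ x).PosSemidef ↔ ∀ v, 0 ≤ qf Φ v x := by
  constructor
  · intro h v
    exact h.re_dotProduct_nonneg v
  · intro h
    refine Matrix.PosSemidef.of_dotProduct_mulVec_nonneg (hΦ.herm x) fun v => ?_
    rw [RCLike.nonneg_iff]
    exact ⟨h v, Matrix.IsHermitian.im_star_dotProduct_mulVec_self (hΦ.herm x) v⟩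

/-- the norm of the quadratic form -/
lemma qf_le (hΦ : Frame Φ) (v : Fin D → 𝕜) (x : Eu ι) : |qf Φ v x| ≤ ‖x‖ * ∑ i, ‖v i‖ ^ 2 := by
  have h1 : |qf Φ v x| ≤ ∑ i, ∑ j, ‖Φ x i j‖ * (‖v i‖ * ‖v j‖) := by
    refine (RCLike.abs_re_le_norm _).trans ?_
    rw [dotProduct]
    refine (norm_sum_le _ _).trans (Finset.sum_le_sum fun i _ => ?_)
    rw [norm_mul, Pi.star_apply, norm_star, Matrix.mulVec, dotProduct]
    refine (mul_le_mul_of_nonneg_left (norm_sum_le _ _) (norm_nonneg _)).trans ?_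
    rw [Finset.mul_sum]
    refine Finset.sum_le_sum fun j _ => ?_
    rw [norm_mul]
    exact le_of_eq (by ring)
  refine h1.trans ?_
  have h2 : ∑ i, ∑ j, ‖Φ x i j‖ * (‖v i‖ * ‖v j‖) =
      ∑ p : Fin D × Fin D, ‖Φ x p.1 p.2‖ * (‖v p.1‖ * ‖v p.2‖) := by
    rw [Fintype.sum_prod_type]
  rw [h2]
  have h3 := Finset.sum_mul_sq_le_sq_mul_sq Finset.univ (fun p : Fin D × Fin D => ‖Φ x p.1 p.2‖)
    (fun p => ‖v p.1‖ * ‖v p.2‖)
  have h4 : ∑ p : Fin D × Fin D, ‖Φ x p.1 p.2‖ ^ 2 = ‖x‖ ^ 2 := by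
    rw [Fintype.sum_prod_type]
    exact hΦ.iso x
  have h5 : ∑ p : Fin D × Fin D, (‖v p.1‖ * ‖v p.2‖) ^ 2 = (∑ i, ‖v i‖ ^ 2) ^ 2 := by
    rw [Fintype.sum_prod_type, sq (∑ i, ‖v i‖ ^ 2), Finset.sum_mul_sum]
    refine Finset.sum_congr rfl fun i _ => Finset.sum_congr rfl fun j _ => ?_
    ring
  rw [h4, h5, ← mul_pow] at h3
  exact le_of_sq_le_sq h3 (by positivity) |>.trans le_rfl

lemma pc (hΦ : Frame Φ) : PC {x : Eu ι | (Φ x).PosSemidef} := by
  have hset : {x : Eu ι | (Φ x).PosSemidef} = ⋂ v : Fin D → 𝕜, {x | 0 ≤ qf Φ v x} := by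
    ext x
    rw [mem_ofPred_eq, mem_iff hΦ, mem_iInter]
    rfl
  refine ⟨?_, ?_, ?_, ?_, ?_⟩
  · rw [hset]
    refine isClosed_iInter fun v => ?_
    exact isClosed_le continuous_const (LinearMap.continuous_of_finiteDimensional (qf Φ v))
  · rw [hset]
    refine convex_iInter fun v => ?_
    exact convex_halfSpace_ge (qf Φ v).isLinear 0
  · intro r hr x hx
    rw [mem_ofPred_eq, mem_iff hΦ] at hx ⊢
    intro v
    rw [map_smul, smul_eq_mul]
    exact mul_nonneg hr (hx v)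
  · obtain ⟨x0, hx0⟩ := hΦ.surj 1 Matrix.conjTranspose_one
    refine ⟨x0, mem_interior.2 ⟨Metric.ball x0 1, ?_, Metric.isOpen_ball, Metric.mem_ball_self one_pos⟩⟩
    intro y hy
    rw [mem_ofPred_eq, mem_iff hΦ]
    intro v
    have h1 := qf_le hΦ v (y - x0)
    have h2 : ‖y - x0‖ < 1 := by rwa [← dist_eq_norm]
    have h3 : qf Φ v x0 = ∑ i, ‖v i‖ ^ 2 := by
      show RCLike.re (star v ⬝ᵥ ((Φ x0) *ᵥ v)) = _
      rw [hx0, Matrix.one_mulVec, dotProduct, map_sum]
      refine Finset.sum_congr rfl fun i _ => ?_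
      rw [Pi.star_apply, RCLike.star_def, RCLike.conj_mul]
      norm_cast
    rw [map_sub, h3] at h1
    have h4 := (abs_le.1 h1).1
    have h5 : 0 ≤ ∑ i, ‖v i‖ ^ 2 := Finset.sum_nonneg fun i _ => sq_nonneg _
    nlinarith
  · intro x hx hx'
    rw [mem_ofPred_eq] at hx hx'
    rw [map_neg] at hx'
    have h1 := hx.trace_nonneg
    have h2 := hx'.trace_nonneg
    rw [Matrix.trace_neg] at h2
    have h3 : (Φ x).trace = 0 := le_antisymm (neg_nonneg.1 h2) h1
    have h4 := hx.trace_eq_zero_iff.1 h3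
    exact inj hΦ (by rw [h4, map_zero])

/-- conjugation by a matrix -/
lemma exists_cj (hΦ : Frame Φ) (S : Matrix (Fin D) (Fin D) 𝕜) : ∃ g : Eu ι →ₗ[ℝ] Eu ι,
    ∀ x, Φ (g x) = S * Φ x * S.conjTranspose := by
  obtain ⟨Ψ, hΨ⟩ := Φ.exists_leftInverse_of_injective (LinearMap.ker_eq_bot.2 (inj hΦ))
  refine ⟨Ψ ∘ₗ { toFun := fun x => S * Φ x * S.conjTranspose, map_add' := ?_, map_smul' := ?_ }, ?_⟩
  · intro x y
    rw [map_add, mul_add, add_mul]
  · intro r x
    rw [map_smul, Matrix.mul_smul, Matrix.smul_mul, RingHom.id_apply]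
  · intro x
    obtain ⟨y, hy⟩ := hΦ.surj (S * Φ x * S.conjTranspose) (by
      rw [Matrix.conjTranspose_mul, Matrix.conjTranspose_mul, Matrix.conjTranspose_conjTranspose,
        hΦ.herm, Matrix.mul_assoc])
    have h1 : Ψ (Φ y) = y := LinearMap.congr_fun hΨ y
    show Φ (Ψ (S * Φ x * S.conjTranspose)) = _
    rw [← hy, h1]

lemma exists_e (hΦ : Frame Φ) {R S : Matrix (Fin D) (Fin D) 𝕜} (h1 : S * R = 1) :
    ∃ e : Eu ι ≃ₗ[ℝ] Eu ι, (∀ x, Φ (e x) = S * Φ x * S.conjTranspose) ∧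
      ∀ x, Φ (e.symm x) = R * Φ x * R.conjTranspose := by
  have h2 : R * S = 1 := mul_eq_one_comm.1 h1
  obtain ⟨g, hg⟩ := exists_cj hΦ S
  obtain ⟨g', hg'⟩ := exists_cj hΦ R
  have e1 : ∀ x, g (g' x) = x := fun x => inj hΦ (by
    rw [hg, hg']
    calc S * (R * Φ x * R.conjTranspose) * S.conjTranspose =
        (S * R) * Φ x * (S * R).conjTranspose := by
          rw [Matrix.conjTranspose_mul]
          simp only [Matrix.mul_assoc]
      _ = Φ x := by rw [h1, Matrix.conjTranspose_one, one_mul, mul_one])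
  have e2 : ∀ x, g' (g x) = x := fun x => inj hΦ (by
    rw [hg', hg]
    calc R * (S * Φ x * S.conjTranspose) * R.conjTranspose =
        (R * S) * Φ x * (R * S).conjTranspose := by
          rw [Matrix.conjTranspose_mul]
          simp only [Matrix.mul_assoc]
      _ = Φ x := by rw [h2, Matrix.conjTranspose_one, one_mul, mul_one])
  refine ⟨LinearEquiv.ofLinearMap g g' (LinearMap.ext e1) (LinearMap.ext e2), ?_, ?_⟩
  · intro x
    exact hg x
  · intro x
    exact hg' x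

/-- the matrix of a positive functional -/
lemma exists_B (hΦ : Frame Φ) {f : Eu ι →ₗ[ℝ] ℝ} (hf : Pf {x : Eu ι | (Φ x).PosSemidef} f) :
    ∃ B : Matrix (Fin D) (Fin D) 𝕜, B.PosDef ∧ ∀ x, f x = RCLike.re (B * Φ x).trace := by
  set b : Eu ι := (InnerProductSpace.toDual ℝ (Eu ι)).symm (LinearMap.toContinuousLinearMap f) with hb
  have h1 : ∀ x, f x = ⟪b, x⟫_ℝ := fun x => by
    rw [hb, InnerProductSpace.toDual_symm_apply]
    rfl
  have h2 : ∀ x, f x = RCLike.re (Φ b * Φ x).trace := fun x => by rw [h1, inner_eq hΦ]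
  refine ⟨Φ b, ?_, h2⟩
  refine Matrix.PosDef.of_dotProduct_mulVec_pos (hΦ.herm b) fun v hv => ?_
  rw [RCLike.pos_iff]
  refine ⟨?_, Matrix.IsHermitian.im_star_dotProduct_mulVec_self (hΦ.herm b) v⟩
  have hP : (Matrix.vecMulVec v (star v)).PosSemidef := Matrix.posSemidef_vecMulVec_self_star v
  obtain ⟨x, hx⟩ := hΦ.surj _ hP.1
  have hx0 : x ≠ 0 := by
    rintro rfl
    rw [map_zero] at hx
    apply hv
    ext i
    have h3 := congrFun (congrFun hx i) i
    rw [Matrix.zero_apply, Matrix.vecMulVec_apply, Pi.star_apply] at h3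
    have h4 := h3.symm
    rw [RCLike.star_def, RCLike.mul_conj] at h4
    have h5 : ‖v i‖ ^ 2 = 0 := by exact_mod_cast h4
    exact norm_eq_zero.1 (pow_eq_zero_iff two_ne_zero |>.1 h5)
  have h3 := hf x (by rw [mem_ofPred_eq, hx]; exact hP) hx0
  rw [h2, hx] at h3
  have h4 : (Φ b * Matrix.vecMulVec v (star v)).trace = star v ⬝ᵥ (Φ b *ᵥ v) := by
    rw [Matrix.mul_vecMulVec, Matrix.trace_vecMulVec, dotProduct_comm]
  rwa [h4] at h3

open scoped MatrixOrder in
/-- **C5** -/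
theorem t_PSDG (h : S_PSDB) : S_PSDG := by
  obtain ⟨A, hA, H⟩ := h
  refine ⟨A, hA, ?_⟩
  intro 𝕜 _ D hD ι _ Φ hΦ
  refine ⟨pc hΦ, ?_⟩
  intro f hf
  obtain ⟨B, hB, hfB⟩ := exists_B hΦ hf
  obtain ⟨R, hR⟩ := CStarAlgebra.nonneg_iff_eq_star_mul_self.mp hB.posSemidef.nonneg
  rw [Matrix.star_eq_conjTranspose] at hR
  have hRu : IsUnit R := by
    have h1 := hB.isUnit
    rw [Matrix.isUnit_iff_isUnit_det] at h1 ⊢
    rw [hR, Matrix.det_mul] at h1
    exact (IsUnit.mul_iff.1 h1).2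
  obtain ⟨S, hS⟩ : ∃ S : Matrix (Fin D) (Fin D) 𝕜, S * R = 1 := hRu.exists_left_inv
  have hS' : R * S = 1 := mul_eq_one_comm.1 hS
  obtain ⟨e, he, he'⟩ := exists_e hΦ hS
  have hlin := lin ι ι A e _ (H 𝕜 D hD ι Φ hΦ)
  have heq : wc {x : Eu ι | (Φ x).PosSemidef} f = fun z =>
      ({x : Eu ι | (Φ x).PosSemidef}.indicator fun x => Real.exp (-RCLike.re (Φ x).trace)) (e.symm z) := by
    funext z
    unfold wc
    have h1 : z ∈ {x : Eu ι | (Φ x).PosSemidef} ↔ e.symm z ∈ {x : Eu ι | (Φ x).PosSemidef} := by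
      rw [mem_ofPred_eq, mem_ofPred_eq]
      constructor
      · intro h
        rw [he']
        exact h.mul_mul_conjTranspose_same R
      · intro h
        have h2 := h.mul_mul_conjTranspose_same S
        rwa [← he, LinearEquiv.apply_symm_apply] at h2
    have h3 : RCLike.re (Φ (e.symm z)).trace = f z := by
      have h4 := hfB z
      have h5 : Φ z = S * Φ (e.symm z) * S.conjTranspose := by
        rw [← he, LinearEquiv.apply_symm_apply]
      rw [h4, h5]
      congr 1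
      rw [hR]
      have h6 : S.conjTranspose * R.conjTranspose = 1 := by
        rw [← Matrix.conjTranspose_mul, hS', Matrix.conjTranspose_one]
      calc (Φ (e.symm z)).trace = ((S.conjTranspose * R.conjTranspose) * ((R * S) * Φ (e.symm z))).trace := by
            rw [h6, hS', one_mul, one_mul]
        _ = (S.conjTranspose * (R.conjTranspose * R * (S * Φ (e.symm z)))).trace := by
            simp only [Matrix.mul_assoc]
        _ = (R.conjTranspose * R * (S * Φ (e.symm z)) * S.conjTranspose).trace := Matrix.trace_mul_comm _ _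
        _ = _ := by simp only [Matrix.mul_assoc]
    by_cases hz : z ∈ {x : Eu ι | (Φ x).PosSemidef}
    · rw [indicator_of_mem hz, indicator_of_mem (h1.1 hz), h3]
    · rw [indicator_of_notMem hz, indicator_of_notMem (fun h => hz (h1.2 h))]
  rw [heq]
  exact hlin

end Pool.Agent.N31.KM
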